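import Mathlib
import Pool.Agent.V1116.GLTrans

/-!
# `GL(V)` has degree of transitivity exactly `2` on the translates of any maximal filter
-/

open Module Cardinal Pool.Agent.V1116.GLTrans

namespace Pool.Agent.Results.MP_5cf805_al.MaxFilterDegreeTwo

universe u v

variable {F : Type u} [Field F] {V : Type v} [AddCommGroup V] [Module F V]

/-- Filters on the lattice of subspaces of `V`. -/
structure IsFilter (𝓕 : Set (Submodule F V)) : Prop where
  top_mem : ⊤ ∈ 𝓕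
  bot_notMem : ⊥ ∉ 𝓕
  mem_of_le : ∀ U W : Submodule F V, U ∈ 𝓕 → U ≤ W → W ∈ 𝓕
  inf_mem : ∀ U W : Submodule F V, U ∈ 𝓕 → W ∈ 𝓕 → U ⊓ W ∈ 𝓕

/-- Maximal filters: filters maximal under inclusion. -/
def IsMaximalFilter (𝓕 : Set (Submodule F V)) : Prop :=
  IsFilter 𝓕 ∧ ∀ 𝓖 : Set (Submodule F V), IsFilter 𝓖 → 𝓕 ⊆ 𝓖 → 𝓖 = 𝓕

theorem IsFilter.translate {𝓕 : Set (Submodule F V)} (h : IsFilter 𝓕) (g : V ≃ₗ[F] V) :
    IsFilter (translate g 𝓕) := by
  refine ⟨?_, ?_, ?_, ?_⟩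
  · rw [mem_translate, Submodule.map_top, LinearEquiv.range]; exact h.top_mem
  · rw [mem_translate, Submodule.map_bot]; exact h.bot_notMem
  · intro U W hU hUW
    rw [mem_translate] at hU ⊢
    exact h.mem_of_le _ _ hU (Submodule.map_mono hUW)
  · intro U W hU hW
    rw [mem_translate] at hU hW ⊢
    rw [Submodule.map_inf _ g.symm.injective]
    exact h.inf_mem _ _ hU hW

theorem IsMaximalFilter.translate {𝓕 : Set (Submodule F V)} (h : IsMaximalFilter 𝓕)
    (g : V ≃ₗ[F] V) : IsMaximalFilter (translate g 𝓕) := by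
  refine ⟨h.1.translate g, ?_⟩
  intro 𝓖 h𝓖 hle
  have h1 : 𝓕 ⊆ Pool.Agent.V1116.GLTrans.translate g.symm 𝓖 := by
    intro U hU
    have : U.map (g : V →ₗ[F] V) ∈ 𝓖 := hle (map_mem_translate hU)
    rw [mem_translate]
    exact this
  have h2 := h.2 _ (h𝓖.translate g.symm) h1
  rw [← h2, translate_trans, LinearEquiv.symm_trans_self, translate_refl]

theorem dichotomy {𝓕 : Set (Submodule F V)} (h : IsMaximalFilter 𝓕) (P : Submodule F V) :
    P ∈ 𝓕 ∨ ∃ W ∈ 𝓕, W ⊓ P = ⊥ := by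
  by_contra hcon
  push Not at hcon
  obtain ⟨hP, hW⟩ := hcon
  apply hP
  rw [← h.2 {X | ∃ W ∈ 𝓕, W ⊓ P ≤ X} ?_ ?_]
  · exact ⟨⊤, h.1.top_mem, inf_le_right⟩
  · refine ⟨⟨⊤, h.1.top_mem, le_top⟩, ?_, ?_, ?_⟩
    · rintro ⟨W, hW1, hW2⟩
      exact hW W hW1 (le_bot_iff.mp hW2)
    · rintro X Y ⟨W, hW1, hW2⟩ hXY
      exact ⟨W, hW1, hW2.trans hXY⟩
    · rintro X Y ⟨W, hW1, hW2⟩ ⟨W', hW1', hW2'⟩
      refine ⟨W ⊓ W', h.1.inf_mem _ _ hW1 hW1', le_inf ?_ ?_⟩
      · exact (inf_le_inf_right _ inf_le_left).trans hW2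
      · exact (inf_le_inf_right _ inf_le_right).trans hW2'
  · intro U hU
    exact ⟨U, hU, inf_le_left⟩

theorem exists_codim (hV : ℵ₀ ≤ Module.rank F V) {𝓕 : Set (Submodule F V)}
    (h : IsMaximalFilter 𝓕) : ∃ A ∈ 𝓕, Module.rank F (V ⧸ A) = Module.rank F V := by
  obtain ⟨P, Q, -, -, hPQ, -, hP, hQ⟩ := exists_halves (⊤ : Submodule F V) (by rwa [rank_top])
  rw [rank_top] at hP hQ
  rcases dichotomy h P with hm | ⟨W, hW, hWP⟩
  · exact ⟨P, hm, rank_quot_of_disjoint hV hPQ (by rw [hP, hQ])⟩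
  · exact ⟨W, hW, rank_quot_of_disjoint hV (disjoint_iff.mpr hWP)
      (by rw [hP]; exact Submodule.rank_le W)⟩

theorem exists_shrink (hV : ℵ₀ ≤ Module.rank F V) {𝓕 : Set (Submodule F V)}
    (h : IsMaximalFilter 𝓕) {A : Submodule F V} (hA : A ∈ 𝓕) :
    ∃ B ∈ 𝓕, B ≤ A ∧ (Module.rank F B < Module.rank F V ∨
      ∃ D ≤ A, Disjoint B D ∧ Module.rank F D = Module.rank F V) := by
  rcases lt_or_eq_of_le (Submodule.rank_le A) with h1 | h1
  · exact ⟨A, hA, le_rfl, Or.inl h1⟩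
  · obtain ⟨P, Q, hPA, hQA, hPQ, -, hP, hQ⟩ := exists_halves A (by rwa [h1])
    rcases dichotomy h P with hm | ⟨W, hW, hWP⟩
    · exact ⟨P, hm, hPA, Or.inr ⟨Q, hQA, hPQ, hQ.trans h1⟩⟩
    · exact ⟨W ⊓ A, h.1.inf_mem _ _ hW hA, inf_le_right, Or.inr ⟨P, hPA,
        (disjoint_iff.mpr hWP).mono_left inf_le_left, hP.trans h1⟩⟩

/-- The map `(a, b) ↦ a + g b` on `B × B`. -/
def pairMap (B : Submodule F V) (g : V ≃ₗ[F] V) : (B × B) →ₗ[F] V :=
  B.subtype.coprod ((g : V →ₗ[F] V).comp B.subtype)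

theorem pairMap_apply (B : Submodule F V) (g : V ≃ₗ[F] V) (a b : B) :
    pairMap B g (a, b) = (a : V) + g (b : V) := rfl

theorem pairMap_injective {A B : Submodule F V} {g : V ≃ₗ[F] V} (hBA : B ≤ A)
    (hA : A ⊓ A.map (g : V →ₗ[F] V) = ⊥) : Function.Injective (pairMap B g) := by
  rw [← LinearMap.ker_eq_bot, LinearMap.ker_eq_bot']
  rintro ⟨a, b⟩ hab
  rw [pairMap_apply] at hab
  have h1 : g (b : V) ∈ A ⊓ A.map (g : V →ₗ[F] V) := by
    refine ⟨?_, ⟨b, hBA b.2, rfl⟩⟩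
    have : g (b : V) = -(a : V) := by
      rw [eq_neg_iff_add_eq_zero, add_comm]; exact hab
    rw [SetLike.mem_coe, this]
    exact A.neg_mem (hBA a.2)
  rw [hA, Submodule.mem_bot] at h1
  rw [h1, add_zero] at hab
  have h2 : (b : V) = 0 := by
    apply g.injective; rw [h1, map_zero]
  have h3 : a = 0 := Subtype.ext hab
  have h4 : b = 0 := Subtype.ext h2
  rw [h3, h4]; rfl

theorem rank_quot_pairMap (hV : ℵ₀ ≤ Module.rank F V) {A B : Submodule F V} {g : V ≃ₗ[F] V}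
    (hBA : B ≤ A) (hA : A ⊓ A.map (g : V →ₗ[F] V) = ⊥)
    (h : Module.rank F B < Module.rank F V ∨
      ∃ D ≤ A, Disjoint B D ∧ Module.rank F D = Module.rank F V) :
    Module.rank F (V ⧸ LinearMap.range (pairMap B g)) = Module.rank F V := by
  rcases h with h | ⟨D, hDA, hBD, hD⟩
  · apply rank_quot_of_lt hV
    have h1 : Module.rank F (LinearMap.range (pairMap B g)) ≤ Module.rank F (B × B) :=
      rank_range_le _
    refine h1.trans_lt ?_
    rw [rank_prod']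
    exact Cardinal.add_lt_of_lt hV h h
  · apply rank_quot_of_disjoint hV (Y := D)
    · rw [Submodule.disjoint_def]
      rintro _ ⟨⟨a, b⟩, rfl⟩ hd
      rw [pairMap_apply] at hd ⊢
      have h1 : g (b : V) ∈ A ⊓ A.map (g : V →ₗ[F] V) := by
        refine ⟨?_, ⟨b, hBA b.2, rfl⟩⟩
        have : g (b : V) = ((a : V) + g (b : V)) - (a : V) := by abel
        rw [SetLike.mem_coe, this]
        exact A.sub_mem (hDA hd) (hBA a.2)
      rw [hA, Submodule.mem_bot] at h1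
      rw [h1, add_zero] at hd ⊢
      exact Submodule.disjoint_def.mp hBD _ a.2 hd
    · rw [hD]; exact Submodule.rank_le _

theorem exists_disjoint {𝓕 : Set (Submodule F V)} (h : IsMaximalFilter 𝓕) {g : V ≃ₗ[F] V}
    (hg : translate g 𝓕 ≠ 𝓕) : ∃ A ∈ 𝓕, A ⊓ A.map (g : V →ₗ[F] V) = ⊥ := by
  have h1 : ∃ X ∈ translate g 𝓕, X ∉ 𝓕 := by
    by_contra hcon
    push Not at hcon
    exact hg ((h.translate g).2 𝓕 h.1 hcon).symm
  obtain ⟨X, hX, hX'⟩ := h1
  rcases dichotomy h X with h2 | ⟨W, hW, hWX⟩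
  · exact absurd h2 hX'
  · obtain ⟨Y, hY, rfl⟩ := hX
    refine ⟨W ⊓ Y, h.1.inf_mem _ _ hW hY, ?_⟩
    rw [← le_bot_iff]
    calc (W ⊓ Y) ⊓ (W ⊓ Y).map (g : V →ₗ[F] V) ≤ W ⊓ Y.map (g : V →ₗ[F] V) :=
          inf_le_inf inf_le_left (Submodule.map_mono inf_le_right)
      _ ≤ ⊥ := le_of_eq hWX

theorem two_transitive (hV : ℵ₀ ≤ Module.rank F V) {𝓕 : Set (Submodule F V)}
    (h : IsMaximalFilter 𝓕) : KTransitive 2 𝓕 := by
  apply kTransitive_two
  intro g g' hg hg'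
  obtain ⟨A, hA, hAg⟩ := exists_disjoint h hg
  obtain ⟨A', hA', hAg'⟩ := exists_disjoint h hg'
  have hC := h.1.inf_mem _ _ hA hA'
  have hCg : (A ⊓ A') ⊓ (A ⊓ A').map (g : V →ₗ[F] V) = ⊥ := by
    rw [← le_bot_iff, ← hAg]
    exact inf_le_inf inf_le_left (Submodule.map_mono inf_le_left)
  have hCg' : (A ⊓ A') ⊓ (A ⊓ A').map (g' : V →ₗ[F] V) = ⊥ := by
    rw [← le_bot_iff, ← hAg']
    exact inf_le_inf inf_le_right (Submodule.map_mono inf_le_right)
  obtain ⟨B, hB, hBC, hB'⟩ := exists_shrink hV h hC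
  obtain ⟨k, hk⟩ := exists_extend (pairMap B g) (pairMap B g') (pairMap_injective hBC hCg)
    (pairMap_injective hBC hCg')
    (by rw [rank_quot_pairMap hV hBC hCg hB', rank_quot_pairMap hV hBC hCg' hB'])
  have hk1 : ∀ b ∈ B, k b = b := by
    intro b hb
    have := hk (⟨b, hb⟩, 0)
    rw [pairMap_apply, pairMap_apply] at this
    simpa using this
  have hk2 : ∀ b ∈ B, k (g b) = g' b := by
    intro b hb
    have := hk (0, ⟨b, hb⟩)
    rw [pairMap_apply, pairMap_apply] at this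
    simpa using this
  refine ⟨k, ?_, ?_⟩
  · apply h.2 _ (h.1.translate k)
    intro U hU
    have h1 : (U ⊓ B).map (k : V →ₗ[F] V) ∈ translate k 𝓕 :=
      map_mem_translate (h.1.inf_mem _ _ hU hB)
    refine (h.1.translate k).mem_of_le _ _ h1 ?_
    rintro _ ⟨x, ⟨hx1, hx2⟩, rfl⟩
    show k x ∈ U
    rw [hk1 x hx2]; exact hx1
  · apply (h.translate g').2 _ ((h.1.translate g).translate k)
    rintro _ ⟨U, hU, rfl⟩
    have h1 : ((U ⊓ B).map (g : V →ₗ[F] V)).map (k : V →ₗ[F] V) ∈ translate k (translate g 𝓕) :=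
      map_mem_translate (map_mem_translate (h.1.inf_mem _ _ hU hB))
    refine ((h.1.translate g).translate k).mem_of_le _ _ h1 ?_
    rintro _ ⟨_, ⟨x, ⟨hx1, hx2⟩, rfl⟩, rfl⟩
    refine ⟨x, hx1, ?_⟩
    show g' x = k (g x)
    rw [hk2 x hx2]

theorem ne_of_disjoint {𝓐 𝓑 : Set (Submodule F V)} (h𝓐 : IsFilter 𝓐) {X Y : Submodule F V}
    (hX : X ∈ 𝓐) (hY : Y ∈ 𝓑) (hXY : Disjoint X Y) : 𝓐 ≠ 𝓑 := by
  rintro rfl
  have := h𝓐.inf_mem _ _ hX hY
  rw [hXY.eq_bot] at this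
  exact h𝓐.bot_notMem this

theorem not_three (hV : ℵ₀ ≤ Module.rank F V) {𝓕 : Set (Submodule F V)}
    (h : IsMaximalFilter 𝓕) (k : ℕ) (hk : 3 ≤ k) : ¬ KTransitive k 𝓕 := by
  obtain ⟨A, hA, hAc⟩ := exists_codim hV h
  have h1 : Module.rank F (ℕ →₀ A) ≤ Module.rank F V := by
    rw [rank_finsupp, mk_nat, lift_aleph0, lift_id']
    refine (Cardinal.mul_le_max_of_aleph0_le_left le_rfl).trans (max_le hV (Submodule.rank_le A))
  obtain ⟨j, hj⟩ := rank_le_iff_exists_linearMap.mp h1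
  -- the embeddings
  let r : ℕ → (A →ₗ[F] V) := fun n => j.comp (Finsupp.lsingle n)
  let s : A →ₗ[F] V := r 0 + r 1
  have hr : ∀ n a, r n a = j (Finsupp.single n a) := fun n a => rfl
  have hs : ∀ a, s a = j (Finsupp.single 0 a + Finsupp.single 1 a) := by
    intro a
    show r 0 a + r 1 a = _
    rw [hr, hr, map_add]
  have hrinj : ∀ n, Function.Injective (r n) := fun n =>
    hj.comp (Finsupp.single_injective n)
  have hsinj : Function.Injective s := by
    intro a b hab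
    rw [hs, hs] at hab
    have := DFunLike.congr_fun (hj hab) 0
    simpa using this
  have hdis : ∀ n m, n ≠ m → Disjoint (LinearMap.range (r n)) (LinearMap.range (r m)) := by
    intro n m hnm
    rw [Submodule.disjoint_def]
    rintro _ ⟨a, rfl⟩ ⟨b, hb⟩
    rw [hr, hr] at hb
    have := DFunLike.congr_fun (hj hb) n
    rw [Finsupp.single_eq_same, Finsupp.single_eq_of_ne hnm] at this
    rw [← this, map_zero]
  have hdis0 : Disjoint (LinearMap.range s) (LinearMap.range (r 0)) := by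
    rw [Submodule.disjoint_def]
    rintro _ ⟨a, rfl⟩ ⟨b, hb⟩
    rw [hr, hs] at hb
    have := DFunLike.congr_fun (hj hb) 1
    simp at this
    rw [← this, map_zero]
  have hdis1 : Disjoint (LinearMap.range s) (LinearMap.range (r 1)) := by
    rw [Submodule.disjoint_def]
    rintro _ ⟨a, rfl⟩ ⟨b, hb⟩
    rw [hr, hs] at hb
    have := DFunLike.congr_fun (hj hb) 0
    simp at this
    rw [← this, map_zero]
  have hdis01 : ∀ a b, r 0 a + r 1 b ∈ LinearMap.range (r 2) → a = 0 ∧ b = 0 := by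
    rintro a b ⟨c, hc⟩
    rw [hr, hr, hr, ← map_add] at hc
    have e := hj hc
    have e0 := DFunLike.congr_fun e 0
    have e1 := DFunLike.congr_fun e 1
    simp at e0 e1
    exact ⟨e0.symm, e1.symm⟩
  have hrk : ∀ f : A →ₗ[F] V, Function.Injective f →
      Module.rank F (LinearMap.range f) = Module.rank F A := fun f hf =>
    (LinearEquiv.ofInjective f hf).rank_eq.symm
  have hA0 : Module.rank F (V ⧸ LinearMap.range A.subtype) = Module.rank F V := by
    rw [Submodule.range_subtype]; exact hAc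
  have hext : ∀ f f' : A →ₗ[F] V, Function.Injective f → Function.Injective f' →
      Disjoint (LinearMap.range f) (LinearMap.range f') → ∃ g : V ≃ₗ[F] V, ∀ a : A,
        g (a : V) = f a := by
    intro f f' hf hf' hd
    apply exists_extend A.subtype f Subtype.val_injective hf
    rw [hA0, rank_quot_of_disjoint hV hd (by rw [hrk f hf, hrk f' hf'])]
  have hg : ∀ n, ∃ g : V ≃ₗ[F] V, ∀ a : A, g (a : V) = r n a := fun n =>
    hext (r n) (r (n + 1)) (hrinj n) (hrinj _) (hdis _ _ (by omega))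
  choose g hg using hg
  obtain ⟨t, ht⟩ := hext s (r 0) hsinj (hrinj 0) hdis0
  have hmem : ∀ n, LinearMap.range (r n) ∈ translate (g n) 𝓕 := by
    intro n
    refine ⟨A, hA, ?_⟩
    ext x
    constructor
    · rintro ⟨a, ha, rfl⟩; exact ⟨⟨a, ha⟩, (hg n ⟨a, ha⟩).symm⟩
    · rintro ⟨a, rfl⟩; exact ⟨a, a.2, hg n a⟩
  have hmemt : LinearMap.range s ∈ translate t 𝓕 := by
    refine ⟨A, hA, ?_⟩
    ext x
    constructor
    · rintro ⟨a, ha, rfl⟩; exact ⟨⟨a, ha⟩, (ht ⟨a, ha⟩).symm⟩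
    · rintro ⟨a, rfl⟩; exact ⟨a, a.2, ht a⟩
  have hne : ∀ n m, n ≠ m → translate (g n) 𝓕 ≠ translate (g m) 𝓕 := fun n m hnm =>
    ne_of_disjoint (h.1.translate _) (hmem n) (hmem m) (hdis n m hnm)
  have hinf : (orbit 𝓕).Infinite := by
    apply Set.infinite_of_injective_forall_mem (f := fun n : ℕ => translate (g n) 𝓕)
    · intro n m hnm
      by_contra hcon
      exact hne n m hcon hnm
    · intro n; exact translate_mem_orbit _ _
  apply not_kTransitive hinf (a₀ := translate (g 0) 𝓕) (a₁ := translate (g 1) 𝓕)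
    (a₂ := translate (g 2) 𝓕) (b₀ := translate (g 0) 𝓕) (b₁ := translate (g 1) 𝓕)
    (b₂ := translate t 𝓕) (translate_mem_orbit _ _) (translate_mem_orbit _ _)
    (translate_mem_orbit _ _) (translate_mem_orbit _ _) (translate_mem_orbit _ _)
    (translate_mem_orbit _ _) (hne _ _ (by norm_num)) (hne _ _ (by norm_num))
    (hne _ _ (by norm_num)) (hne _ _ (by norm_num))
    (ne_of_disjoint (h.1.translate _) hmemt (hmem 0) hdis0).symm
    (ne_of_disjoint (h.1.translate _) hmemt (hmem 1) hdis1).symm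
    ?_ k hk
  intro x hx0 hx1 hx2
  -- the images of the three independent members
  have hX : (LinearMap.range (r 0)).map (x : V →ₗ[F] V) ∈ translate (g 0) 𝓕 := by
    rw [← hx0]; exact map_mem_translate (hmem 0)
  have hY : (LinearMap.range (r 1)).map (x : V →ₗ[F] V) ∈ translate (g 1) 𝓕 := by
    rw [← hx1]; exact map_mem_translate (hmem 1)
  have hZ : (LinearMap.range (r 2)).map (x : V →ₗ[F] V) ∈ translate t 𝓕 := by
    rw [← hx2]; exact map_mem_translate (hmem 2)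
  rw [mem_translate] at hX hY
  have hC := h.1.inf_mem _ _ hA (h.1.inf_mem _ _ hX hY)
  have hC' := map_mem_translate (g := t) hC
  have hsup := (h.1.translate t).mem_of_le _
    ((LinearMap.range (r 0)).map (x : V →ₗ[F] V) ⊔ (LinearMap.range (r 1)).map (x : V →ₗ[F] V))
    hC' (by
      rintro _ ⟨c, ⟨hcA, ⟨y0, hy0, hc0⟩, ⟨y1, hy1, hc1⟩⟩, rfl⟩
      have e0 : g 0 c = y0 := by rw [← hc0]; exact (g 0).apply_symm_apply y0
      have e1 : g 1 c = y1 := by rw [← hc1]; exact (g 1).apply_symm_apply y1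
      have e2 : t c = g 0 c + g 1 c := by
        rw [ht ⟨c, hcA⟩, hg 0 ⟨c, hcA⟩, hg 1 ⟨c, hcA⟩]; rfl
      show t c ∈ _
      rw [e2, e0, e1]
      exact Submodule.add_mem_sup hy0 hy1)
  have hinf' := (h.1.translate t).inf_mem _ _ hsup hZ
  rw [← Submodule.map_sup, ← Submodule.map_inf _ x.injective] at hinf'
  have : (LinearMap.range (r 0) ⊔ LinearMap.range (r 1)) ⊓ LinearMap.range (r 2) = ⊥ := by
    rw [Submodule.eq_bot_iff]
    rintro y ⟨hy1, hy2⟩
    rw [SetLike.mem_coe, Submodule.mem_sup] at hy1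
    obtain ⟨_, ⟨a, rfl⟩, _, ⟨b, rfl⟩, rfl⟩ := hy1
    obtain ⟨ha, hb⟩ := hdis01 a b hy2
    rw [ha, hb, map_zero, map_zero, add_zero]
  rw [this, Submodule.map_bot] at hinf'
  exact (h.1.translate t).bot_notMem hinf'

/-- **Theorem.** Let `V` be an infinite-dimensional vector space over a field `F` and `𝓕` any
maximal filter on the lattice of subspaces of `V`.  Then the degree of transitivity of `GL(V)` on
the orbit `𝓕^GL(V)` is exactly `2`; more precisely, the action is `2`-transitive and is not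
`k`-transitive for any `k ≥ 3`. -/
theorem result (F : Type u) [Field F] (V : Type v) [AddCommGroup V] [Module F V]
    (hV : ℵ₀ ≤ Module.rank F V) (𝓕 : Set (Submodule F V)) (h : IsMaximalFilter 𝓕) :
    KTransitive 2 𝓕 ∧ (∀ k, 3 ≤ k → ¬ KTransitive k 𝓕) ∧ transitivityDegree 𝓕 = 2 :=
  ⟨two_transitive hV h, not_three hV h,
    transitivityDegree_eq_two (two_transitive hV h) (not_three hV h)⟩

end Pool.Agent.Results.MP_5cf805_al.MaxFilterDegreeTwo
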