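import Mathlib
import Pool.Agent.V1116.GLTrans

/-!
# `GL(V)` has degree of transitivity exactly `2` on the translates of any maximal ideal
-/

open Module Cardinal Pool.Agent.V1116.GLTrans

namespace Pool.Agent.Results.MP_5cf805_al.MaxIdealDegreeTwo

universe u v

variable {F : Type u} [Field F] {V : Type v} [AddCommGroup V] [Module F V]

/-- Ideals of the lattice of subspaces of `V`. -/
structure IsIdeal (𝓘 : Set (Submodule F V)) : Prop where
  bot_mem : ⊥ ∈ 𝓘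
  top_notMem : ⊤ ∉ 𝓘
  mem_of_le : ∀ U W : Submodule F V, W ∈ 𝓘 → U ≤ W → U ∈ 𝓘
  sup_mem : ∀ U W : Submodule F V, U ∈ 𝓘 → W ∈ 𝓘 → U ⊔ W ∈ 𝓘

/-- Maximal ideals: ideals maximal under inclusion. -/
def IsMaximalIdeal (𝓘 : Set (Submodule F V)) : Prop :=
  IsIdeal 𝓘 ∧ ∀ 𝓙 : Set (Submodule F V), IsIdeal 𝓙 → 𝓘 ⊆ 𝓙 → 𝓙 = 𝓘

theorem IsIdeal.translate {𝓘 : Set (Submodule F V)} (h : IsIdeal 𝓘) (g : V ≃ₗ[F] V) :
    IsIdeal (translate g 𝓘) := by
  refine ⟨?_, ?_, ?_, ?_⟩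
  · rw [mem_translate, Submodule.map_bot]; exact h.bot_mem
  · rw [mem_translate, Submodule.map_top, LinearEquiv.range]; exact h.top_notMem
  · intro U W hW hUW
    rw [mem_translate] at hW ⊢
    exact h.mem_of_le _ _ hW (Submodule.map_mono hUW)
  · intro U W hU hW
    rw [mem_translate] at hU hW ⊢
    rw [Submodule.map_sup]
    exact h.sup_mem _ _ hU hW

theorem IsMaximalIdeal.translate {𝓘 : Set (Submodule F V)} (h : IsMaximalIdeal 𝓘)
    (g : V ≃ₗ[F] V) : IsMaximalIdeal (translate g 𝓘) := by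
  refine ⟨h.1.translate g, ?_⟩
  intro 𝓖 h𝓖 hle
  have h1 : 𝓘 ⊆ Pool.Agent.V1116.GLTrans.translate g.symm 𝓖 := by
    intro U hU
    have : U.map (g : V →ₗ[F] V) ∈ 𝓖 := hle (map_mem_translate hU)
    rw [mem_translate]
    exact this
  have h2 := h.2 _ (h𝓖.translate g.symm) h1
  rw [← h2, translate_trans, LinearEquiv.symm_trans_self, translate_refl]

theorem dichotomy {𝓘 : Set (Submodule F V)} (h : IsMaximalIdeal 𝓘) (P : Submodule F V) :
    P ∈ 𝓘 ∨ ∃ W ∈ 𝓘, W ⊔ P = ⊤ := by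
  by_contra hcon
  push Not at hcon
  obtain ⟨hP, hW⟩ := hcon
  apply hP
  rw [← h.2 {X | ∃ W ∈ 𝓘, X ≤ W ⊔ P} ?_ ?_]
  · exact ⟨⊥, h.1.bot_mem, le_sup_right⟩
  · refine ⟨⟨⊥, h.1.bot_mem, bot_le⟩, ?_, ?_, ?_⟩
    · rintro ⟨W, hW1, hW2⟩
      exact hW W hW1 (top_le_iff.mp hW2)
    · rintro X Y ⟨W, hW1, hW2⟩ hXY
      exact ⟨W, hW1, hXY.trans hW2⟩
    · rintro X Y ⟨W, hW1, hW2⟩ ⟨W', hW1', hW2'⟩
      refine ⟨W ⊔ W', h.1.sup_mem _ _ hW1 hW1', sup_le ?_ ?_⟩
      · exact hW2.trans (sup_le_sup_right le_sup_left _)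
      · exact hW2'.trans (sup_le_sup_right le_sup_right _)
  · intro U hU
    exact ⟨U, hU, le_sup_left⟩

/-- If `B ⊔ D = ⊤` then `B` has dimension at least the codimension of `D`. -/
theorem rank_quot_le_of_sup {B D : Submodule F V} (h : B ⊔ D = ⊤) :
    Module.rank F (V ⧸ D) ≤ Module.rank F B := by
  apply LinearMap.rank_le_of_surjective (D.mkQ.comp B.subtype)
  intro q
  obtain ⟨v, rfl⟩ := D.mkQ_surjective q
  have hv : v ∈ B ⊔ D := by rw [h]; trivial
  rw [Submodule.mem_sup] at hv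
  obtain ⟨b, hb, d, hd, rfl⟩ := hv
  refine ⟨⟨b, hb⟩, ?_⟩
  rw [LinearMap.comp_apply, Submodule.subtype_apply, map_add]
  have : D.mkQ d = 0 := by
    rw [Submodule.mkQ_apply, Submodule.Quotient.mk_eq_zero]; exact hd
  rw [this, add_zero]

theorem exists_rank (hV : ℵ₀ ≤ Module.rank F V) {𝓘 : Set (Submodule F V)}
    (h : IsMaximalIdeal 𝓘) : ∃ A ∈ 𝓘, Module.rank F A = Module.rank F V := by
  obtain ⟨P, Q, -, -, hPQ, -, hP, hQ⟩ := exists_halves (⊤ : Submodule F V) (by rwa [rank_top])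
  rw [rank_top] at hP hQ
  rcases dichotomy h P with hm | ⟨W, hW, hWP⟩
  · exact ⟨P, hm, hP⟩
  · refine ⟨W, hW, le_antisymm (Submodule.rank_le W) ?_⟩
    rw [← rank_quot_of_disjoint hV hPQ (by rw [hP, hQ])]
    exact rank_quot_le_of_sup hWP

theorem exists_enlarge (hV : ℵ₀ ≤ Module.rank F V) {𝓘 : Set (Submodule F V)}
    (h : IsMaximalIdeal 𝓘) {A : Submodule F V} (hA : A ∈ 𝓘) :
    ∃ B ∈ 𝓘, A ≤ B ∧ (Module.rank F (V ⧸ B) < Module.rank F V ∨
      ∃ D, A ≤ D ∧ B ⊔ D = ⊤ ∧ Module.rank F V ≤ Module.rank F (V ⧸ D)) := by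
  rcases lt_or_eq_of_le (rank_quotient_le A) with h1 | h1
  · exact ⟨A, hA, le_rfl, Or.inl h1⟩
  · obtain ⟨P, Q, -, -, hPQ, hsup, hP, hQ⟩ :=
      exists_halves (⊤ : Submodule F (V ⧸ A)) (by rwa [rank_top, h1])
    rw [rank_top] at hP hQ
    have hle : ∀ X : Submodule F (V ⧸ A), A ≤ X.comap A.mkQ := by
      intro X a ha
      have : A.mkQ a = 0 := by
        rw [Submodule.mkQ_apply, Submodule.Quotient.mk_eq_zero]; exact ha
      rw [Submodule.mem_comap, this]
      exact X.zero_mem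
    have hcod : ∀ X Y : Submodule F (V ⧸ A), Disjoint X Y → Module.rank F X ≤ Module.rank F Y →
        Module.rank F V ≤ Module.rank F (V ⧸ X.comap A.mkQ) := by
      intro X Y hXY hr
      have h2 := rank_quot_of_disjoint (V := V ⧸ A) (by rwa [h1]) hXY hr
      rw [← h1, ← h2]
      apply LinearMap.rank_le_of_surjective
        ((X.comap A.mkQ).liftQ (X.mkQ.comp A.mkQ) (by
          intro x hx
          rw [LinearMap.mem_ker, LinearMap.comp_apply, Submodule.mkQ_apply,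
            Submodule.Quotient.mk_eq_zero]
          exact hx))
      intro q
      obtain ⟨v, rfl⟩ := X.mkQ_surjective q
      obtain ⟨w, rfl⟩ := A.mkQ_surjective v
      exact ⟨(X.comap A.mkQ).mkQ w, rfl⟩
    have htop : P.comap A.mkQ ⊔ Q.comap A.mkQ = ⊤ := by
      rw [eq_top_iff]
      intro v _
      have hv : A.mkQ v ∈ P ⊔ Q := by rw [hsup]; trivial
      rw [Submodule.mem_sup] at hv
      obtain ⟨p, hp, q, hq, hpq⟩ := hv
      obtain ⟨p, rfl⟩ := A.mkQ_surjective p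
      rw [Submodule.mem_sup]
      refine ⟨p, hp, v - p, ?_, by abel⟩
      rw [Submodule.mem_comap, map_sub, ← hpq, add_sub_cancel_left]
      exact hq
    rcases dichotomy h (P.comap A.mkQ) with hm | ⟨W, hW, hWP⟩
    · exact ⟨P.comap A.mkQ, hm, hle P, Or.inr ⟨Q.comap A.mkQ, hle Q, htop,
        hcod Q P hPQ.symm (by rw [hP, hQ])⟩⟩
    · refine ⟨W ⊔ A, h.1.sup_mem _ _ hW hA, le_sup_right, Or.inr ⟨P.comap A.mkQ, hle P, ?_,
        hcod P Q hPQ (by rw [hP, hQ])⟩⟩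
      rw [eq_top_iff, ← hWP]
      exact sup_le_sup_right le_sup_left _

/-- The map `v ↦ (v mod B, g⁻¹ v mod B)`. -/
def pairMap (B : Submodule F V) (g : V ≃ₗ[F] V) : V →ₗ[F] (V ⧸ B) × (V ⧸ B) :=
  B.mkQ.prod (B.mkQ.comp (g.symm : V →ₗ[F] V))

theorem pairMap_apply (B : Submodule F V) (g : V ≃ₗ[F] V) (v : V) :
    pairMap B g v = (B.mkQ v, B.mkQ (g.symm v)) := rfl

theorem mkQ_eq_iff {B : Submodule F V} {x y : V} : B.mkQ x = B.mkQ y ↔ x - y ∈ B := by
  rw [Submodule.mkQ_apply, Submodule.mkQ_apply, Submodule.Quotient.eq]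

theorem pairMap_surjective {A B : Submodule F V} {g : V ≃ₗ[F] V} (hAB : A ≤ B)
    (hA : A ⊔ A.map (g : V →ₗ[F] V) = ⊤) : Function.Surjective (pairMap B g) := by
  rintro ⟨x, y⟩
  obtain ⟨x, rfl⟩ := B.mkQ_surjective x
  obtain ⟨y, rfl⟩ := B.mkQ_surjective y
  have h : x - g y ∈ A ⊔ A.map (g : V →ₗ[F] V) := by rw [hA]; trivial
  rw [Submodule.mem_sup] at h
  obtain ⟨a, ha, _, ⟨b, hb, rfl⟩, hab⟩ := h
  refine ⟨x - a, ?_⟩
  rw [pairMap_apply]
  apply Prod.ext
  · show B.mkQ (x - a) = B.mkQ x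
    rw [mkQ_eq_iff]
    have : x - a - x = -a := by abel
    rw [this]; exact B.neg_mem (hAB ha)
  · show B.mkQ (g.symm (x - a)) = B.mkQ y
    have h1 : x - a = g (y + b) := by
      have h2 : a + g b = x - g y := hab
      rw [map_add, ← sub_eq_zero]
      calc x - a - (g y + g b) = (x - g y) - (a + g b) := by abel
        _ = 0 := by rw [h2, sub_self]
    rw [h1, LinearEquiv.symm_apply_apply, mkQ_eq_iff, add_sub_cancel_left]
    exact hAB hb

theorem rank_ker_pairMap (hV : ℵ₀ ≤ Module.rank F V) {A B : Submodule F V} {g : V ≃ₗ[F] V}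
    (hAB : A ≤ B) (hA : A ⊔ A.map (g : V →ₗ[F] V) = ⊤)
    (h : Module.rank F (V ⧸ B) < Module.rank F V ∨
      ∃ D, A ≤ D ∧ B ⊔ D = ⊤ ∧ Module.rank F V ≤ Module.rank F (V ⧸ D)) :
    Module.rank F (LinearMap.ker (pairMap B g)) = Module.rank F V := by
  apply le_antisymm (Submodule.rank_le _)
  rcases h with h | ⟨D, hDA, hBD, hD⟩
  · by_contra hcon
    push Not at hcon
    have h1 := LinearMap.rank_range_add_rank_ker (pairMap B g)
    have h2 : Module.rank F (LinearMap.range (pairMap B g)) < Module.rank F V := by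
      refine (Submodule.rank_le _).trans_lt ?_
      rw [rank_prod']
      exact Cardinal.add_lt_of_lt hV h h
    exact absurd h1 (Cardinal.add_lt_of_lt hV h2 hcon).ne
  · refine hD.trans (rank_quot_le_of_sup ?_)
    rw [eq_top_iff]
    intro v _
    have hv : v ∈ B ⊔ D := by rw [hBD]; trivial
    rw [Submodule.mem_sup] at hv
    obtain ⟨b, hb, d, hd, rfl⟩ := hv
    have hb' : b ∈ A ⊔ A.map (g : V →ₗ[F] V) := by rw [hA]; trivial
    rw [Submodule.mem_sup] at hb'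
    obtain ⟨a, ha, _, ⟨c, hc, rfl⟩, hac⟩ := hb'
    rw [Submodule.mem_sup]
    refine ⟨g c, ?_, a + d, D.add_mem (hDA ha) hd, ?_⟩
    · rw [LinearMap.mem_ker, pairMap_apply]
      apply Prod.ext
      · show B.mkQ (g c) = 0
        rw [Submodule.mkQ_apply, Submodule.Quotient.mk_eq_zero]
        have h2 : a + g c = b := hac
        have : g c = b - a := by rw [← h2]; abel
        rw [this]; exact B.sub_mem hb (hAB ha)
      · show B.mkQ (g.symm (g c)) = 0
        rw [LinearEquiv.symm_apply_apply, Submodule.mkQ_apply, Submodule.Quotient.mk_eq_zero]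
        exact hAB hc
    · have h2 : a + g c = b := hac
      rw [← h2]; abel

theorem exists_sup_top {𝓘 : Set (Submodule F V)} (h : IsMaximalIdeal 𝓘) {g : V ≃ₗ[F] V}
    (hg : translate g 𝓘 ≠ 𝓘) : ∃ A ∈ 𝓘, A ⊔ A.map (g : V →ₗ[F] V) = ⊤ := by
  have h1 : ∃ X ∈ translate g 𝓘, X ∉ 𝓘 := by
    by_contra hcon
    push Not at hcon
    exact hg ((h.translate g).2 𝓘 h.1 hcon).symm
  obtain ⟨X, hX, hX'⟩ := h1
  rcases dichotomy h X with h2 | ⟨W, hW, hWX⟩
  · exact absurd h2 hX'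
  · obtain ⟨Y, hY, rfl⟩ := hX
    refine ⟨W ⊔ Y, h.1.sup_mem _ _ hW hY, ?_⟩
    rw [eq_top_iff, ← hWX]
    exact sup_le_sup le_sup_left (Submodule.map_mono le_sup_right)

theorem two_transitive (hV : ℵ₀ ≤ Module.rank F V) {𝓘 : Set (Submodule F V)}
    (h : IsMaximalIdeal 𝓘) : KTransitive 2 𝓘 := by
  apply kTransitive_two
  intro g g' hg hg'
  obtain ⟨A, hA, hAg⟩ := exists_sup_top h hg
  obtain ⟨A', hA', hAg'⟩ := exists_sup_top h hg'
  have hC := h.1.sup_mem _ _ hA hA'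
  have hCg : (A ⊔ A') ⊔ (A ⊔ A').map (g : V →ₗ[F] V) = ⊤ := by
    rw [eq_top_iff, ← hAg]
    exact sup_le_sup le_sup_left (Submodule.map_mono le_sup_left)
  have hCg' : (A ⊔ A') ⊔ (A ⊔ A').map (g' : V →ₗ[F] V) = ⊤ := by
    rw [eq_top_iff, ← hAg']
    exact sup_le_sup le_sup_right (Submodule.map_mono le_sup_right)
  obtain ⟨B, hB, hBC, hB'⟩ := exists_enlarge hV h hC
  obtain ⟨k, hk⟩ := exists_lift (pairMap B g) (pairMap B g') (pairMap_surjective hBC hCg)
    (pairMap_surjective hBC hCg')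
    (by rw [rank_ker_pairMap hV hBC hCg hB', rank_ker_pairMap hV hBC hCg' hB'])
  have hk1 : ∀ v, k v - v ∈ B := by
    intro v
    have := congrArg Prod.fst (hk v)
    rw [pairMap_apply, pairMap_apply] at this
    exact mkQ_eq_iff.mp this
  have hk2 : ∀ v, g'.symm (k (g v)) - v ∈ B := by
    intro v
    have := congrArg Prod.snd (hk (g v))
    rw [pairMap_apply, pairMap_apply] at this
    have h1 : B.mkQ (g'.symm (k (g v))) = B.mkQ (g.symm (g v)) := this
    rw [LinearEquiv.symm_apply_apply] at h1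
    exact mkQ_eq_iff.mp h1
  refine ⟨k, ?_, ?_⟩
  · symm
    apply (h.translate k).2 _ h.1
    rintro _ ⟨U, hU, rfl⟩
    refine h.1.mem_of_le _ (U ⊔ B) (h.1.sup_mem _ _ hU hB) ?_
    rintro _ ⟨x, hx, rfl⟩
    rw [Submodule.mem_sup]
    exact ⟨x, hx, k x - x, hk1 x, by show x + (k x - x) = k x; abel⟩
  · symm
    apply ((h.translate g).translate k).2 _ (h.1.translate g')
    rintro _ ⟨_, ⟨U, hU, rfl⟩, rfl⟩
    refine (h.1.translate g').mem_of_le _ ((U ⊔ B).map (g' : V →ₗ[F] V))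
      (map_mem_translate (h.1.sup_mem _ _ hU hB)) ?_
    rintro _ ⟨_, ⟨x, hx, rfl⟩, rfl⟩
    refine ⟨g'.symm (k (g x)), ?_, g'.apply_symm_apply _⟩
    rw [SetLike.mem_coe, Submodule.mem_sup]
    exact ⟨x, hx, g'.symm (k (g x)) - x, hk2 x, by abel⟩

theorem ne_of_sup {𝓐 𝓑 : Set (Submodule F V)} (h𝓐 : IsIdeal 𝓐) {X Y : Submodule F V}
    (hX : X ∈ 𝓐) (hY : Y ∈ 𝓑) (hXY : X ⊔ Y = ⊤) : 𝓐 ≠ 𝓑 := by
  rintro rfl
  have := h𝓐.sup_mem _ _ hX hY
  rw [hXY] at this
  exact h𝓐.top_notMem this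

/-- If `ρ'` restricted to `ker ρ` is onto, then `ker ρ` has the dimension of `V`. -/
theorem rank_ker_eq (hV : ℵ₀ ≤ Module.rank F V) {C : Type v} [AddCommGroup C] [Module F C]
    (ρ ρ' : V →ₗ[F] C) (h : ∀ c, ∃ v, ρ v = 0 ∧ ρ' v = c) :
    Module.rank F (LinearMap.ker ρ) = Module.rank F V := by
  apply le_antisymm (Submodule.rank_le _)
  have h1 : Module.rank F C ≤ Module.rank F (LinearMap.ker ρ) := by
    apply LinearMap.rank_le_of_surjective (ρ'.comp (LinearMap.ker ρ).subtype)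
    intro c
    obtain ⟨v, hv, hc⟩ := h c
    exact ⟨⟨v, hv⟩, hc⟩
  have h2 := LinearMap.rank_range_add_rank_ker ρ
  have h3 : Module.rank F V ≤ Module.rank F (LinearMap.ker ρ) + Module.rank F (LinearMap.ker ρ) := by
    rw [← h2]
    exact add_le_add_left ((Submodule.rank_le _).trans h1) _
  have h4 : ℵ₀ ≤ Module.rank F (LinearMap.ker ρ) := by
    by_contra hcon
    push Not at hcon
    exact absurd (hV.trans h3) (not_le.mpr (add_lt_aleph0 hcon hcon))
  rwa [add_eq_self h4] at h3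

theorem not_three (hV : ℵ₀ ≤ Module.rank F V) {𝓘 : Set (Submodule F V)}
    (h : IsMaximalIdeal 𝓘) (k : ℕ) (hk : 3 ≤ k) : ¬ KTransitive k 𝓘 := by
  obtain ⟨A, hA, hAr⟩ := exists_rank hV h
  have h1 : Module.rank F (ℕ →₀ (V ⧸ A)) ≤ Module.rank F V := by
    rw [rank_finsupp, mk_nat, lift_aleph0, lift_id']
    refine (Cardinal.mul_le_max_of_aleph0_le_left le_rfl).trans (max_le hV (rank_quotient_le A))
  obtain ⟨i, hi⟩ := rank_le_iff_exists_linearMap.mp h1
  obtain ⟨j, hj⟩ := i.exists_leftInverse_of_injective (LinearMap.ker_eq_bot.mpr hi)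
  have hj' : ∀ c, j (i c) = c := fun c => DFunLike.congr_fun hj c
  -- the projections
  let r : ℕ → (V →ₗ[F] (V ⧸ A)) := fun n => (Finsupp.lapply n).comp j
  let s : V →ₗ[F] (V ⧸ A) := r 0 + r 1
  have hr : ∀ n v, r n v = j v n := fun n v => rfl
  have hs : ∀ v, s v = j v 0 + j v 1 := fun v => rfl
  -- existence of vectors with prescribed coordinates
  have hdis : ∀ n m, n ≠ m → ∀ c, ∃ v, r n v = 0 ∧ r m v = c := by
    intro n m hnm c
    refine ⟨i (Finsupp.single m c), ?_, ?_⟩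
    · rw [hr, hj', Finsupp.single_eq_of_ne hnm]
    · rw [hr, hj', Finsupp.single_eq_same]
  have hdis0 : ∀ c, ∃ v, s v = 0 ∧ r 0 v = c := by
    intro c
    refine ⟨i (Finsupp.single 0 c - Finsupp.single 1 c), ?_, ?_⟩
    · rw [hs, hj']; simp
    · rw [hr, hj']; simp
  have hdis1 : ∀ c, ∃ v, s v = 0 ∧ r 1 v = c := by
    intro c
    refine ⟨i (Finsupp.single 1 c - Finsupp.single 0 c), ?_, ?_⟩
    · rw [hs, hj']; simp
    · rw [hr, hj']; simp
  have hsup : ∀ f f' : V →ₗ[F] (V ⧸ A), (∀ c, ∃ v, f v = 0 ∧ f' v = c) →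
      LinearMap.ker f ⊔ LinearMap.ker f' = ⊤ := by
    intro f f' hff
    rw [eq_top_iff]
    intro v _
    obtain ⟨w, hw, hw'⟩ := hff (f' v)
    rw [Submodule.mem_sup]
    exact ⟨w, hw, v - w, by rw [LinearMap.mem_ker, map_sub, hw', sub_self], by abel⟩
  have hrsurj : ∀ n, Function.Surjective (r n) := by
    intro n c
    obtain ⟨v, -, hv⟩ := hdis (n + 1) n (by omega) c
    exact ⟨v, hv⟩
  have hssurj : Function.Surjective s := by
    intro c
    refine ⟨i (Finsupp.single 0 c), ?_⟩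
    rw [hs, hj']; simp
  have hA0 : Module.rank F (LinearMap.ker A.mkQ) = Module.rank F V := by
    rw [Submodule.ker_mkQ]; exact hAr
  have hlift : ∀ f f' : V →ₗ[F] (V ⧸ A), Function.Surjective f →
      (∀ c, ∃ v, f v = 0 ∧ f' v = c) → ∃ g : V ≃ₗ[F] V, ∀ v, f (g v) = A.mkQ v := by
    intro f f' hf hff
    apply exists_lift A.mkQ f A.mkQ_surjective hf
    rw [hA0, rank_ker_eq hV f f' hff]
  have hg : ∀ n, ∃ g : V ≃ₗ[F] V, ∀ v, r n (g v) = A.mkQ v := fun n =>
    hlift (r n) (r (n + 1)) (hrsurj n) (hdis _ _ (by omega))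
  choose g hg using hg
  obtain ⟨t, ht⟩ := hlift s (r 0) hssurj hdis0
  have hker : ∀ (f : V →ₗ[F] (V ⧸ A)) (x : V ≃ₗ[F] V), (∀ v, f (x v) = A.mkQ v) →
      LinearMap.ker f ∈ translate x 𝓘 := by
    intro f x hx
    refine ⟨A, hA, ?_⟩
    ext y
    constructor
    · rintro ⟨a, ha, rfl⟩
      show f (x a) = 0
      rw [hx, Submodule.mkQ_apply, Submodule.Quotient.mk_eq_zero]
      exact ha
    · intro hy
      refine ⟨x.symm y, ?_, x.apply_symm_apply y⟩
      have := hx (x.symm y)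
      rw [x.apply_symm_apply, LinearMap.mem_ker.mp hy] at this
      rw [SetLike.mem_coe, ← Submodule.Quotient.mk_eq_zero, ← Submodule.mkQ_apply]
      exact this.symm
  have hmem : ∀ n, LinearMap.ker (r n) ∈ translate (g n) 𝓘 := fun n => hker _ _ (hg n)
  have hmemt : LinearMap.ker s ∈ translate t 𝓘 := hker _ _ ht
  have hne : ∀ n m, n ≠ m → translate (g n) 𝓘 ≠ translate (g m) 𝓘 := fun n m hnm =>
    ne_of_sup (h.1.translate _) (hmem n) (hmem m) (hsup _ _ (hdis n m hnm))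
  have hinf : (orbit 𝓘).Infinite := by
    apply Set.infinite_of_injective_forall_mem (f := fun n : ℕ => translate (g n) 𝓘)
    · intro n m hnm
      by_contra hcon
      exact hne n m hcon hnm
    · intro n; exact translate_mem_orbit _ _
  apply not_kTransitive hinf (a₀ := translate (g 0) 𝓘) (a₁ := translate (g 1) 𝓘)
    (a₂ := translate (g 2) 𝓘) (b₀ := translate (g 0) 𝓘) (b₁ := translate (g 1) 𝓘)
    (b₂ := translate t 𝓘) (translate_mem_orbit _ _) (translate_mem_orbit _ _)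
    (translate_mem_orbit _ _) (translate_mem_orbit _ _) (translate_mem_orbit _ _)
    (translate_mem_orbit _ _) (hne _ _ (by norm_num)) (hne _ _ (by norm_num))
    (hne _ _ (by norm_num)) (hne _ _ (by norm_num))
    (ne_of_sup (h.1.translate _) hmemt (hmem 0) (hsup _ _ hdis0)).symm
    (ne_of_sup (h.1.translate _) hmemt (hmem 1) (hsup _ _ hdis1)).symm
    ?_ k hk
  intro x hx0 hx1 hx2
  have hX : (LinearMap.ker (r 0)).map (x : V →ₗ[F] V) ∈ translate (g 0) 𝓘 := by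
    rw [← hx0]; exact map_mem_translate (hmem 0)
  have hY : (LinearMap.ker (r 1)).map (x : V →ₗ[F] V) ∈ translate (g 1) 𝓘 := by
    rw [← hx1]; exact map_mem_translate (hmem 1)
  have hZ : (LinearMap.ker (r 2)).map (x : V →ₗ[F] V) ∈ translate t 𝓘 := by
    rw [← hx2]; exact map_mem_translate (hmem 2)
  rw [mem_translate] at hX hY
  have hC := h.1.sup_mem _ _ hA (h.1.sup_mem _ _ hX hY)
  have hC' := map_mem_translate (g := t) hC
  have hinfm := (h.1.translate t).mem_of_le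
    ((LinearMap.ker (r 0)).map (x : V →ₗ[F] V) ⊓ (LinearMap.ker (r 1)).map (x : V →ₗ[F] V)) _
    hC' (by
      rintro v ⟨hv0, hv1⟩
      have e0 : (g 0).symm v ∈ ((LinearMap.ker (r 0)).map (x : V →ₗ[F] V)).map
          ((g 0).symm : V →ₗ[F] V) := ⟨v, hv0, rfl⟩
      have e1 : (g 1).symm v ∈ ((LinearMap.ker (r 1)).map (x : V →ₗ[F] V)).map
          ((g 1).symm : V →ₗ[F] V) := ⟨v, hv1, rfl⟩
      refine ⟨t.symm v, ?_, t.apply_symm_apply v⟩
      have e2 : t.symm v - ((g 0).symm v + (g 1).symm v) ∈ A := by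
        rw [← mkQ_eq_iff, map_add, ← ht, ← hg 0, ← hg 1, t.apply_symm_apply,
          (g 0).apply_symm_apply, (g 1).apply_symm_apply]
        rfl
      rw [SetLike.mem_coe, Submodule.mem_sup]
      refine ⟨_, e2, (g 0).symm v + (g 1).symm v, Submodule.add_mem_sup e0 e1, by abel⟩)
  have hsup' := (h.1.translate t).sup_mem _ _ hinfm hZ
  rw [← Submodule.map_inf _ x.injective, ← Submodule.map_sup] at hsup'
  have : (LinearMap.ker (r 0) ⊓ LinearMap.ker (r 1)) ⊔ LinearMap.ker (r 2) = ⊤ := by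
    rw [eq_top_iff]
    intro v _
    rw [Submodule.mem_sup]
    refine ⟨i (Finsupp.single 2 (j v 2)), ⟨?_, ?_⟩, v - i (Finsupp.single 2 (j v 2)), ?_, by abel⟩
    · rw [SetLike.mem_coe, LinearMap.mem_ker, hr, hj']; simp
    · rw [SetLike.mem_coe, LinearMap.mem_ker, hr, hj']; simp
    · rw [LinearMap.mem_ker, map_sub, hr, hr, hj', Finsupp.single_eq_same, sub_self]
  rw [this, Submodule.map_top, LinearEquiv.range] at hsup'
  exact (h.1.translate t).top_notMem hsup'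

/-- **Theorem.** Let `V` be an infinite-dimensional vector space over a field `F` and `𝓘` any
maximal ideal of the lattice of subspaces of `V`.  Then the degree of transitivity of `GL(V)` on
the orbit `𝓘^GL(V)` is exactly `2`; more precisely, the action is `2`-transitive and is not
`k`-transitive for any `k ≥ 3`. -/
theorem result (F : Type u) [Field F] (V : Type v) [AddCommGroup V] [Module F V]
    (hV : ℵ₀ ≤ Module.rank F V) (𝓘 : Set (Submodule F V)) (h : IsMaximalIdeal 𝓘) :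
    KTransitive 2 𝓘 ∧ (∀ k, 3 ≤ k → ¬ KTransitive k 𝓘) ∧ transitivityDegree 𝓘 = 2 :=
  ⟨two_transitive hV h, not_three hV h,
    transitivityDegree_eq_two (two_transitive hV h) (not_three hV h)⟩

end Pool.Agent.Results.MP_5cf805_al.MaxIdealDegreeTwo
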